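import Mathlib

set_option autoImplicit false

namespace Pool.Agent.Results.MP_3fd052_nt.Avoid

/-- The lower degree of `K = (k n)`: the infimum, in `ℕ∞` (so that it is `⊤` for the empty set),
of the integers `d ≥ 1` such that `k n - k (n - 1) = d` for infinitely many `n ≥ 1`. -/
noncomputable def lowerDegree (k : ℕ → ℕ) : ℕ∞ :=
  sInf {e : ℕ∞ | ∃ d : ℕ, 1 ≤ d ∧ e = (d : ℕ∞) ∧
    {n : ℕ | 1 ≤ n ∧ (k n : ℤ) - (k (n - 1) : ℤ) = (d : ℤ)}.Infinite}

/-- `b` is a `K`-sequence: it is constant on every block `[k n, k (n + 1))`, and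
`b (k n) - b (k (n - 1)) = b n` for all `n ≥ 1`. -/
def IsKSequence (k : ℕ → ℕ) (b : ℕ → ℤ) : Prop :=
  (∀ n i : ℕ, k n ≤ i → i < k (n + 1) → b i = b (k n)) ∧
  (∀ n : ℕ, 1 ≤ n → b (k n) - b (k (n - 1)) = b n)

/-- Dependent choice along `ℕ`. -/
theorem exists_seq {α : Type} (P : ℕ → α → Prop) (R : ℕ → α → α → Prop) (a0 : α)
    (h0 : P 0 a0) (hs : ∀ n a, P n a → ∃ b, P (n + 1) b ∧ R n a b) :
    ∃ f : ℕ → α, f 0 = a0 ∧ (∀ n, P n (f n)) ∧ ∀ n, R n (f n) (f (n + 1)) := by
  choose g hg using hs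
  let F : (n : ℕ) → {a // P n a} := fun n =>
    Nat.rec (motive := fun n => {a // P n a}) ⟨a0, h0⟩
      (fun n a => ⟨g n a.1 a.2, (hg n a.1 a.2).1⟩) n
  exact ⟨fun n => (F n).1, rfl, fun n => (F n).2, fun n => (hg n (F n).1 (F n).2).2⟩

/-- The key arithmetic fact: a residue `r` other than `0` and `1` has a multiple `u * r`,
`1 ≤ u ≤ m`, whose least nonnegative representative is at least `2 * m`. -/
theorem exists_mult {m p : ℕ} [Fact p.Prime] (hm : 1 ≤ m) (hmp : 4 * m ≤ p + 1) (r : ZMod p)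
    (h0 : r ≠ 0) (h1 : r ≠ 1) :
    ∃ u : ℕ, 1 ≤ u ∧ u ≤ m ∧ 2 * m ≤ ((u : ZMod p) * r).val := by
  have hp : p.Prime := Fact.out
  have : NeZero p := ⟨hp.ne_zero⟩
  set v := r.val with hv
  have hvp : v < p := ZMod.val_lt r
  have hr : (v : ZMod p) = r := ZMod.natCast_zmod_val r
  have hv0 : v ≠ 0 := by
    intro h
    apply h0
    rw [← hr, h]
    simp
  have hv1 : v ≠ 1 := by
    intro h
    apply h1
    rw [← hr, h]
    simp
  have hv2 : 2 ≤ v := by omega
  by_cases hbig : 2 * m ≤ v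
  · refine ⟨1, le_rfl, hm, ?_⟩
    simpa using hbig
  · push Not at hbig
    -- u = ceil(2m / v)
    let u := (2 * m + v - 1) / v
    have hvpos : 0 < v := by omega
    have hu_le : u * v ≤ 2 * m + v - 1 := Nat.div_mul_le_self _ _
    have hu_gt : 2 * m + v - 1 < (u + 1) * v := by
      have := Nat.lt_div_mul_add (a := 2 * m + v - 1) hvpos
      calc 2 * m + v - 1 < (2 * m + v - 1) / v * v + v := this
        _ = (u + 1) * v := by ring
    have hu1 : 2 * m ≤ u * v := by
      have : (u + 1) * v = u * v + v := by ring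
      omega
    have hupos : 1 ≤ u := by
      rcases Nat.eq_zero_or_pos u with h | h
      · rw [h] at hu1
        omega
      · exact h
    have hum : u ≤ m := by
      have h2 : u * 2 ≤ u * v := Nat.mul_le_mul_left u hv2
      by_contra hcon
      push Not at hcon
      -- u ≥ m + 1, u v ≤ 2 m + v - 1, so (m+1) v ≤ 2m + v - 1, i.e. m v ≤ 2 m - 1
      have h3 : (m + 1) * v ≤ u * v := Nat.mul_le_mul_right v hcon
      have h4 : m * 2 ≤ m * v := Nat.mul_le_mul_left m hv2
      have h5 : (m + 1) * v = m * v + v := by ring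
      omega
    refine ⟨u, hupos, hum, ?_⟩
    have hlt : u * v < p := by omega
    have : ((u : ZMod p) * r).val = u * v := by
      rw [← hr, ← Nat.cast_mul, ZMod.val_natCast, Nat.mod_eq_of_lt hlt]
    rw [this]
    exact hu1

/-- The invariant of the construction. A state is `(N, c)`: the values `c 0, …, c (N - 1)` have
been chosen, `N = k j`. -/
def Inv (m p j : ℕ) (s : ℕ × (ℕ → ℤ)) : Prop :=
  j + 2 ≤ s.1 ∧
  (∀ i < s.1, ((s.2 i : ℤ) : ZMod p) ≠ 0) ∧
  (∀ i, i + 1 < s.1 → ((s.2 i : ℤ) : ZMod p) ≠ ((s.2 (i + 1) : ℤ) : ZMod p)) ∧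
  ∃ t : ℕ, 2 * m ≤ t ∧ t < p ∧
    ((s.2 (s.1 - 1) : ℤ) : ZMod p) + (t : ZMod p) * ((s.2 j : ℤ) : ZMod p) = 0

theorem step {m p : ℕ} [Fact p.Prime] (hm : 1 ≤ m) (hmp : 4 * m ≤ p + 1) (j : ℕ)
    (s : ℕ × (ℕ → ℤ)) (hs : Inv m p j s) :
    ∃ s' : ℕ × (ℕ → ℤ), Inv m p (j + 1) s' ∧
      (s.1 + m ≤ s'.1 ∧ s'.1 ≤ s.1 + (p - 1) ∧ (∀ i < s.1, s'.2 i = s.2 i) ∧
        ∀ i, s.1 ≤ i → i < s'.1 → s'.2 i = s'.2 (i - 1) + s.2 j) := by
  obtain ⟨N, c⟩ := s
  obtain ⟨hN, hne, hnb, t, ht1, ht2, ht⟩ := hs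
  simp only at hN hne hnb ht ⊢
  have hp : p.Prime := Fact.out
  have : NeZero p := ⟨hp.ne_zero⟩
  set a : ZMod p := ((c j : ℤ) : ZMod p) with ha
  set a' : ZMod p := ((c (j + 1) : ℤ) : ZMod p) with ha'
  have ha0 : a ≠ 0 := hne j (by omega)
  have ha'0 : a' ≠ 0 := hne (j + 1) (by omega)
  have haa' : a ≠ a' := hnb j (by omega)
  have hr0 : a / a' ≠ 0 := div_ne_zero ha0 ha'0
  have hr1 : a / a' ≠ 1 := by
    intro h
    exact haa' ((div_eq_one_iff_eq ha'0).1 h)
  obtain ⟨u, hu1, hum, hu2⟩ := exists_mult hm hmp (a / a') hr0 hr1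
  have hcN : ((c (N - 1) : ℤ) : ZMod p) = -((t : ZMod p) * a) := by
    rw [← add_eq_zero_iff_eq_neg]
    exact ht
  -- the new values
  let c' : ℕ → ℤ := fun i => if i < N then c i else c (N - 1) + ((i : ℤ) + 1 - (N : ℤ)) * c j
  have hc'lt : ∀ i, i < N → c' i = c i := fun i hi => by simp [c', hi]
  have hc'ge : ∀ i, N ≤ i → c' i = c (N - 1) + ((i : ℤ) + 1 - (N : ℤ)) * c j :=
    fun i hi => by simp [c', not_lt.2 hi]
  have hstep : ∀ i, N ≤ i → c' i = c' (i - 1) + c j := by
    intro i hi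
    rcases Nat.eq_or_lt_of_le hi with h | h
    · subst h
      rw [hc'ge N le_rfl, hc'lt (N - 1) (by omega)]
      ring
    · rw [hc'ge i hi, hc'ge (i - 1) (by omega)]
      have : ((i - 1 : ℕ) : ℤ) = (i : ℤ) - 1 := by
        have : 1 ≤ i := by omega
        push_cast [this]
        ring
      rw [this]
      ring
  -- value modulo p in the new block
  have hval : ∀ e : ℕ, 1 ≤ e → e ≤ t → ((c' (N + e - 1) : ℤ) : ZMod p)
      = -(((t - e : ℕ) : ZMod p) * a) := by
    intro e he1 he2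
    rw [hc'ge (N + e - 1) (by omega)]
    have h1 : ((N + e - 1 : ℕ) : ℤ) + 1 - (N : ℤ) = (e : ℤ) := by
      have : 1 ≤ N + e := by omega
      push_cast [this]
      ring
    rw [h1]
    push_cast [he2]
    rw [hcN, ← ha]
    ring
  have hdm : m ≤ t - u := by omega
  refine ⟨(N + (t - u), c'), ⟨?_, ?_, ?_, ?_⟩, ?_, ?_, ?_, ?_⟩
  · show j + 1 + 2 ≤ N + (t - u)
    omega
  · intro i hi
    simp only at hi ⊢
    by_cases hiN : i < N
    · rw [hc'lt i hiN]
      exact hne i hiN
    · push Not at hiN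
      obtain ⟨e, rfl⟩ : ∃ e, i = N + e - 1 := ⟨i + 1 - N, by omega⟩
      have he1 : 1 ≤ e := by omega
      have he2 : e ≤ t - u := by omega
      rw [hval e he1 (by omega), neg_ne_zero]
      apply mul_ne_zero _ ha0
      intro h
      rw [ZMod.natCast_eq_zero_iff] at h
      have := Nat.le_of_dvd (by omega) h
      omega
  · intro i hi
    simp only at hi ⊢
    by_cases hiN : i + 1 < N
    · rw [hc'lt i (by omega), hc'lt (i + 1) hiN]
      exact hnb i hiN
    · push Not at hiN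
      rw [hstep (i + 1) hiN]
      simp only [add_tsub_cancel_right]
      push_cast
      intro h
      apply ha0
      rw [ha]
      have := left_eq_add.1 h
      exact this
  · refine ⟨((u : ZMod p) * (a / a')).val, hu2, ZMod.val_lt _, ?_⟩
    simp only
    rw [hc'lt (j + 1) (by omega), hval (t - u) (by omega) (by omega)]
    rw [ZMod.natCast_zmod_val, ← ha']
    have : t - (t - u) = u := by omega
    rw [this]
    field_simp
    ring
  · show N + m ≤ N + (t - u)
    omega
  · show N + (t - u) ≤ N + (p - 1)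
    omega
  · intro i hi
    exact hc'lt i hi
  · intro i hi _
    exact hstep i hi

/-- The starting state: `k 1 = p - 1`, `c i = i + 1` for `i < p - 1`. -/
theorem init {m p : ℕ} [Fact p.Prime] (hm : 2 ≤ m) (hmp : 4 * m ≤ p + 1) :
    Inv m p 1 (p - 1, fun i => (i : ℤ) + 1) := by
  have hp : p.Prime := Fact.out
  have hodd : Odd p := hp.odd_of_ne_two (by omega)
  obtain ⟨q, hq⟩ := hodd
  refine ⟨?_, ?_, ?_, q + 1, by omega, by omega, ?_⟩
  · show 1 + 2 ≤ p - 1
    omega
  · intro i hi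
    simp only at hi ⊢
    have : (((i : ℤ) + 1 : ℤ) : ZMod p) = ((i + 1 : ℕ) : ZMod p) := by push_cast; ring
    rw [this]
    intro h
    rw [ZMod.natCast_eq_zero_iff] at h
    have := Nat.le_of_dvd (by omega) h
    omega
  · intro i _
    simp only
    push_cast
    intro h
    have h1 : (1 : ZMod p) = 0 := by
      have := h
      rw [add_assoc, add_right_inj] at this
      have h2 := left_eq_add.1 this
      exact h2
    exact one_ne_zero h1
  · simp only
    have h1 : (((p - 1 - 1 : ℕ) : ℤ) + 1 : ℤ) = (p : ℤ) - 1 := by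
      have : 1 ≤ p - 1 := by omega
      have h3 : 1 ≤ p := by omega
      push_cast [this, h3]
      ring
    rw [h1]
    push_cast
    rw [CharP.cast_eq_zero]
    have h2 : ((q : ZMod p) * 2 + 1) = 0 := by
      have : ((2 * q + 1 : ℕ) : ZMod p) = 0 := by rw [← hq]; exact CharP.cast_eq_zero _ _
      push_cast at this
      rw [mul_comm]
      exact this
    linear_combination h2

/-- **Disproof of Q1.** For all `m ≥ 3` and all primes `p ≥ 4 m - 1` (for instance `m = 3`,
`p = 11`) there is a sequence `K` all of whose gaps lie in `[m, p - 1]`, in particular of lower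
degree at least `m`, and a `K`-sequence `b` with `b 0 = 1` no term of which is divisible
by `p`. -/
theorem result (m p : ℕ) (hm : 3 ≤ m) (hp : p.Prime) (hmp : 4 * m ≤ p + 1) :
    ∃ k : ℕ → ℕ, k 0 = 0 ∧ StrictMono k ∧
      (∀ n, m ≤ k (n + 1) - k n ∧ k (n + 1) - k n ≤ p - 1) ∧
      (m : ℕ∞) ≤ lowerDegree k ∧
      ∃ b : ℕ → ℤ, IsKSequence k b ∧ b 0 = 1 ∧ ∀ n, ¬ ((p : ℤ) ∣ b n) := by
  have : Fact p.Prime := ⟨hp⟩
  obtain ⟨f, hf0, hfI, hfR⟩ := exists_seq (fun n s => Inv m p (n + 1) s)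
    (fun n s s' => s.1 + m ≤ s'.1 ∧ s'.1 ≤ s.1 + (p - 1) ∧ (∀ i < s.1, s'.2 i = s.2 i) ∧
        ∀ i, s.1 ≤ i → i < s'.1 → s'.2 i = s'.2 (i - 1) + s.2 (n + 1))
    (p - 1, fun i => (i : ℤ) + 1) (init (by omega) hmp)
    (fun n s hs => step (by omega) hmp (n + 1) s hs)
  -- the block ends
  let k : ℕ → ℕ := fun n => match n with
    | 0 => 0
    | n + 1 => (f n).1
  have hk0 : k 0 = 0 := rfl
  have hks : ∀ n, k (n + 1) = (f n).1 := fun n => rfl
  have hk1 : k 1 = p - 1 := by rw [hks, hf0]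
  have hgap : ∀ n, k n + m ≤ k (n + 1) ∧ k (n + 1) ≤ k n + (p - 1) := by
    intro n
    rcases n with _ | n
    · rw [hk0, zero_add, hk1]
      omega
    · rw [hks, hks]
      exact ⟨(hfR n).1, (hfR n).2.1⟩
  have hmono : StrictMono k := strictMono_nat_of_lt_succ (fun n => by
    have := (hgap n).1
    omega)
  -- stability of the values
  have hle : ∀ n l, (f n).1 ≤ (f (n + l)).1 := by
    intro n l
    have := hmono.monotone (show n + 1 ≤ n + l + 1 by omega)
    rwa [hks, hks] at this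
  have hstab : ∀ n i, i < (f n).1 → ∀ l, (f (n + l)).2 i = (f n).2 i := by
    intro n i hi l
    induction l with
    | zero => rfl
    | succ l ih =>
      rw [← ih]
      exact (hfR (n + l)).2.2.1 i (lt_of_lt_of_le hi (hle n l))
  let c : ℕ → ℤ := fun i => (f i).2 i
  have hfc : ∀ n i, i < (f n).1 → (f n).2 i = c i := by
    intro n i hi
    rcases le_total n i with h | h
    · obtain ⟨l, rfl⟩ := Nat.exists_eq_add_of_le h
      exact (hstab n (n + l) hi l).symm
    · obtain ⟨l, rfl⟩ := Nat.exists_eq_add_of_le h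
      refine hstab i i ?_ l
      have := (hfI i).1
      omega
  have hc0 : c 0 = 1 := by
    show (f 0).2 0 = 1
    rw [hf0]
    simp
  -- the recurrence for `c`
  have hrec : ∀ j i, 1 ≤ i → k j ≤ i → i < k (j + 1) → c i = c (i - 1) + c j := by
    intro j i hi hji hij
    rcases j with _ | j
    · have hi' : i < (f 0).1 := hij
      rw [← hfc 0 i hi', ← hfc 0 (i - 1) (by omega), hc0, hf0]
      simp only
      have : ((i - 1 : ℕ) : ℤ) = (i : ℤ) - 1 := by push_cast [hi]; ring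
      rw [this]
      ring
    · have h1 : (f j).1 ≤ i := hji
      have h2 : i < (f (j + 1)).1 := hij
      have h3 := (hfR j).2.2.2 i h1 h2
      rw [hfc (j + 1) i h2, hfc (j + 1) (i - 1) (by omega)] at h3
      rw [h3, hfc j (j + 1)]
      have := (hfI j).1
      omega
  have hcne : ∀ i, ((c i : ℤ) : ZMod p) ≠ 0 := by
    intro i
    refine (hfI i).2.1 i ?_
    have := (hfI i).1
    omega
  -- the index of the block containing `n`
  let idx : ℕ → ℕ := fun n => Nat.findGreatest (fun j => k j ≤ n) n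
  have hidx1 : ∀ n, k (idx n) ≤ n := by
    intro n
    exact Nat.findGreatest_spec (P := fun j => k j ≤ n) (Nat.zero_le n) (by simp [hk0])
  have hidx2 : ∀ n, n < k (idx n + 1) := by
    intro n
    by_cases h : idx n + 1 ≤ n
    · have := Nat.findGreatest_is_greatest (P := fun j => k j ≤ n) (n := n) (k := idx n + 1)
        (Nat.lt_succ_self _) h
      omega
    · have := hmono.id_le (idx n + 1)
      simp only [id] at this
      omega
  have hidxu : ∀ n j, k j ≤ n → n < k (j + 1) → idx n = j := by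
    intro n j h1 h2
    have h3 : idx n < j + 1 := hmono.lt_iff_lt.1 (lt_of_le_of_lt (hidx1 n) h2)
    have h4 : j < idx n + 1 := hmono.lt_iff_lt.1 (lt_of_le_of_lt h1 (hidx2 n))
    omega
  have hidxk : ∀ n, idx (k n) = n := fun n =>
    hidxu (k n) n le_rfl (hmono (Nat.lt_succ_self n))
  refine ⟨k, hk0, hmono, ?_, ?_, fun n => c (idx n), ⟨?_, ?_⟩, ?_, ?_⟩
  · intro n
    have := hgap n
    omega
  · apply le_sInf
    rintro e ⟨d, _, rfl, hinf⟩
    obtain ⟨n, hn1, hn2⟩ := hinf.nonempty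
    have h := (hgap (n - 1)).1
    have h' : n - 1 + 1 = n := by omega
    rw [h'] at h
    have h3 : m ≤ d := by omega
    exact_mod_cast h3
  · intro n i h1 h2
    simp only
    rw [hidxu i n h1 h2, hidxk]
  · intro n hn
    simp only
    rw [hidxk, hidxk]
    have := hrec (idx n) n hn (hidx1 n) (hidx2 n)
    rw [this]
    ring
  · simp only
    have : idx 0 = 0 := hidxu 0 0 (by simp [hk0]) (by rw [hk1]; omega)
    rw [this, hc0]
  · intro n h
    apply hcne (idx n)
    exact (ZMod.intCast_zmod_eq_zero_iff_dvd _ _).2 h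

end Pool.Agent.Results.MP_3fd052_nt.Avoid
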